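import Pool.Agent.helper24.NR.Spec

/-! # Project NR, row HLO: a face away from `x`, `y` has an inner edge or at least four edges -/

set_option autoImplicit false

namespace Pool.Agent.NR

open Finset

theorem HLO_three {β : Type} (f g A B C : β) (hA : A = f ∨ A = g) (hB : B = f ∨ B = g)
    (hC : C = f ∨ C = g) (hAB : A ≠ B) : C = A ∨ C = B := by
  rcases hA with h1 | h1
  · rcases hB with h2 | h2
    · exact absurd (h1.trans h2.symm) hAB
    · rcases hC with h3 | h3
      · left; rw [h3, h1]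
      · right; rw [h3, h2]
  · rcases hB with h2 | h2
    · rcases hC with h3 | h3
      · right; rw [h3, h2]
      · left; rw [h3, h1]
    · exact absurd (h1.trans h2.symm) hAB

theorem HLO_two {V F : Type} {vs : F → Finset V} {es : F → Finset (Sym2 V)} (hc : Cfg vs es)
    (e : Sym2 V) (A B C : F) (hAB : A ≠ B) (hA : e ∈ es A) (hB : e ∈ es B) (hC : e ∈ es C) :
    C = A ∨ C = B := by
  obtain ⟨f, g, -, h⟩ := hc.two e ⟨A, hA⟩
  exact HLO_three f g A B C ((h A).1 hA) ((h B).1 hB) ((h C).1 hC) hAB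

theorem HLO_at {V F : Type} {vs : F → Finset V} {es : F → Finset (Sym2 V)} (hc : Cfg vs es)
    (f : F) (q a b w : V) (hab : a ≠ b) (ha : s(q, a) ∈ es f) (hb : s(q, b) ∈ es f)
    (hw : s(q, w) ∈ es f) : w = a ∨ w = b := by
  obtain ⟨c, d, -, h⟩ := hc.deg2 f q (hc.ends f q a ha).1
  exact HLO_three c d a b w ((h a).1 ha) ((h b).1 hb) ((h w).1 hw) hab

theorem HLO_core {V F : Type} (vs : F → Finset V) (es : F → Finset (Sym2 V)) (x y : V)
    (hb : Bad vs es x y) (H : F) (hx : x ∉ vs H) (hy : y ∉ vs H) (q p r : V) (hpr : p ≠ r)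
    (h1 : s(q, p) ∈ es H) (h2 : s(q, r) ∈ es H) (f f' : F) (hf : x ∈ vs f) (hf1 : s(q, p) ∈ es f)
    (hf' : x ∈ vs f') (hf1' : s(q, r) ∈ es f') : False := by
  have hc := hb.cfg
  obtain ⟨hq, hp, hqp⟩ := hc.ends H q p h1
  obtain ⟨-, hr, hqr⟩ := hc.ends H q r h2
  obtain ⟨hqf, hpf, -⟩ := hc.ends f q p hf1
  obtain ⟨hqf', hrf', -⟩ := hc.ends f' q r hf1'
  have hfH : f ≠ H := by
    rintro rfl
    exact hx hf
  have hfH' : f' ≠ H := by
    rintro rfl
    exact hx hf'
  have hff : f ≠ f' := by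
    rintro rfl
    exact hc.meet3 f H hfH q p r hqp hpr hqr hqf hpf hrf' hq hp hr
  have hqx : q ≠ x := by
    rintro rfl
    exact hx hq
  have hqy : q ≠ y := by
    rintro rfl
    exact hy hq
  have hxp : x ≠ p := by
    rintro rfl
    exact hx hp
  have hxr : x ≠ r := by
    rintro rfl
    exact hx hr
  have e1 : s(q, x) ∈ es f := hc.meet2 f f' hff q x hqx hqf hf hqf' hf'
  have e2 : s(q, x) ∈ es f' := hc.meet2 f' f (Ne.symm hff) q x hqx hqf' hf' hqf hf
  have hS : ∀ g, q ∈ vs g → g ∈ ({f, f', H} : Set F) := by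
    refine hc.link q ({f, f', H} : Set F) ⟨f, by simp, hqf⟩ ?_
    rintro g hg g' ⟨e, hqe, heg, heg'⟩
    obtain ⟨w, rfl⟩ : ∃ w, e = s(q, w) := by
      obtain ⟨w, hw⟩ := Sym2.mem_iff_exists.1 hqe
      exact ⟨w, hw⟩
    have key : w = x ∨ w = p ∨ w = r := by
      rcases hg with rfl | rfl | hg
      · rcases HLO_at hc _ q x p w hxp e1 hf1 heg with h | h
        · exact Or.inl h
        · exact Or.inr (Or.inl h)
      · rcases HLO_at hc _ q x r w hxr e2 hf1' heg with h | h
        · exact Or.inl h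
        · exact Or.inr (Or.inr h)
      · rw [Set.mem_singleton_iff] at hg
        subst hg
        rcases HLO_at hc _ q p r w hpr h1 h2 heg with h | h
        · exact Or.inr (Or.inl h)
        · exact Or.inr (Or.inr h)
    rcases key with rfl | rfl | rfl
    · rcases HLO_two hc _ f f' g' hff e1 e2 heg' with h | h
      · rw [h]; simp
      · rw [h]; simp
    · rcases HLO_two hc _ f H g' hfH hf1 h1 heg' with h | h
      · rw [h]; simp
      · rw [h]; simp
    · rcases HLO_two hc _ f' H g' hfH' hf1' h2 heg' with h | h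
      · rw [h]; simp
      · rw [h]; simp
  obtain ⟨-, g, hyg, hqg⟩ := hb.star q hqx hqy
  rcases hS g hqg with h | h | h
  · rw [h] at hyg
    exact hb.noface f hf hyg
  · rw [h] at hyg
    exact hb.noface f' hf' hyg
  · rw [Set.mem_singleton_iff] at h
    rw [h] at hyg
    exact hy hyg

theorem HLO_tri {V F : Type} (vs : F → Finset V) (es : F → Finset (Sym2 V)) (hc : Cfg vs es) (H : F)
    (p q r : V) (hvs : ∀ w, w ∈ vs H → w = p ∨ w = q ∨ w = r) (hp : p ∈ vs H) :
    s(p, q) ∈ es H ∧ s(p, r) ∈ es H := by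
  obtain ⟨a, b, hab, h⟩ := hc.deg2 H p hp
  have ha := (h a).2 (Or.inl rfl)
  have hb := (h b).2 (Or.inr rfl)
  obtain ⟨-, ha1, ha2⟩ := hc.ends H p a ha
  obtain ⟨-, hb1, hb2⟩ := hc.ends H p b hb
  have ha3 : a = q ∨ a = r := (hvs a ha1).resolve_left (Ne.symm ha2)
  have hb3 : b = q ∨ b = r := (hvs b hb1).resolve_left (Ne.symm hb2)
  rcases ha3 with h1 | h1
  · rcases hb3 with h2 | h2
    · exact absurd (h1.trans h2.symm) hab
    · rw [h1] at ha
      rw [h2] at hb
      exact ⟨ha, hb⟩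
  · rcases hb3 with h2 | h2
    · rw [h1] at ha
      rw [h2] at hb
      exact ⟨hb, ha⟩
    · exact absurd (h1.trans h2.symm) hab

theorem HLO (hSYM : SYM_stmt) : HLO_stmt := by
  classical
  intro V F _ _ vs es x y hb H hH
  have hc := hb.cfg
  have hH' := (mem_filter.1 hH).2
  by_contra hcon
  have hcard := card_filter_add_card_filter_not (s := es H) (fun e => e ∈ IN vs es x y)
  have h3 := hc.three H
  have hce := hc.card_eq H
  have hn3 : (vs H).card = 3 := by omega
  have hi0 : ((es H).filter fun e => e ∈ IN vs es x y).card = 0 := by omega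
  have hno : ∀ e ∈ es H, (∃ f, x ∈ vs f ∧ e ∈ es f) ∨ ∃ f, y ∈ vs f ∧ e ∈ es f := by
    intro e he
    by_contra hcon2
    push Not at hcon2
    have : e ∈ (es H).filter fun e => e ∈ IN vs es x y := by
      rw [mem_filter]
      refine ⟨he, ?_⟩
      unfold IN EE
      rw [mem_filter, mem_biUnion]
      refine ⟨⟨H, mem_univ _, he⟩, ?_⟩
      intro f hf
      exact ⟨fun h => hcon2.1 f h hf, fun h => hcon2.2 f h hf⟩
    rw [card_eq_zero] at hi0
    rw [hi0] at this
    exact absurd this (notMem_empty e)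
  obtain ⟨p, q, r, hpq, hpr, hqr, hvs⟩ := card_eq_three.1 hn3
  have hmem : ∀ w, w ∈ vs H ↔ w = p ∨ w = q ∨ w = r := by
    intro w
    rw [hvs, mem_insert, mem_insert, mem_singleton]
  obtain ⟨hepq, hepr⟩ := HLO_tri vs es hc H p q r (fun w hw => (hmem w).1 hw)
    ((hmem p).2 (Or.inl rfl))
  obtain ⟨heqr, heqp⟩ := HLO_tri vs es hc H q r p (fun w hw => by
      rcases (hmem w).1 hw with h | h | h
      · exact Or.inr (Or.inr h)
      · exact Or.inl h
      · exact Or.inr (Or.inl h)) ((hmem q).2 (Or.inr (Or.inl rfl)))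
  obtain ⟨herp, herq⟩ := HLO_tri vs es hc H r p q (fun w hw => by
      rcases (hmem w).1 hw with h | h | h
      · exact Or.inr (Or.inl h)
      · exact Or.inr (Or.inr h)
      · exact Or.inl h) ((hmem r).2 (Or.inr (Or.inr rfl)))
  -- the two kinds
  have hX : ∀ u v w : V, v ≠ w → s(u, v) ∈ es H → s(u, w) ∈ es H →
      (∃ f, x ∈ vs f ∧ s(u, v) ∈ es f) → (∃ f, x ∈ vs f ∧ s(u, w) ∈ es f) → False := by
    rintro u v w hvw h1 h2 ⟨f, hf, hf1⟩ ⟨f', hf', hf1'⟩
    exact HLO_core vs es x y hb H hH'.1 hH'.2 u v w hvw h1 h2 f f' hf hf1 hf' hf1'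
  have hY : ∀ u v w : V, v ≠ w → s(u, v) ∈ es H → s(u, w) ∈ es H →
      (∃ f, y ∈ vs f ∧ s(u, v) ∈ es f) → (∃ f, y ∈ vs f ∧ s(u, w) ∈ es f) → False := by
    rintro u v w hvw h1 h2 ⟨f, hf, hf1⟩ ⟨f', hf', hf1'⟩
    exact HLO_core vs es y x (hSYM V F vs es x y hb) H hH'.2 hH'.1 u v w hvw h1 h2 f f' hf hf1 hf' hf1'
  have s1 : s(q, p) = s(p, q) := Sym2.eq_swap
  have s2 : s(r, p) = s(p, r) := Sym2.eq_swap
  have s3 : s(r, q) = s(q, r) := Sym2.eq_swap
  rcases hno _ hepq with k1 | k1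
  · rcases hno _ heqr with k2 | k2
    · exact hX q p r hpr heqp heqr (by rw [s1]; exact k1) k2
    · rcases hno _ hepr with k3 | k3
      · exact hX p q r hqr hepq hepr k1 k3
      · exact hY r q p (Ne.symm hpq) herq herp (by rw [s3]; exact k2) (by rw [s2]; exact k3)
  · rcases hno _ heqr with k2 | k2
    · rcases hno _ hepr with k3 | k3
      · exact hX r q p (Ne.symm hpq) herq herp (by rw [s3]; exact k2) (by rw [s2]; exact k3)
      · exact hY p q r hqr hepq hepr k1 k3
    · exact hY q p r hpr heqp heqr (by rw [s1]; exact k1) k2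

end Pool.Agent.NR
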